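import Mathlib

/-!
# Majority relation of the Condorcet domains of powers of a bipartite Coxeter element
-/

namespace Pool.Agent.Results.MP_43f1fb_co.BipartiteMajority

open Equiv

/-! ## Definitions -/

/-- The adjacent transposition `s_i`, `1 ≤ i ≤ n - 1`: it exchanges the `i`-th and the
`(i+1)`-st element of `Fin n` (the elements `i - 1` and `i`, counted from `0`).
For other `i` it is the identity. -/
def s (n i : ℕ) : Perm (Fin n) :=
  if h : 1 ≤ i ∧ i < n then swap ⟨i - 1, by omega⟩ ⟨i, h.2⟩ else 1

/-- The word `s_1 s_3 s_5 ⋯` of all odd letters `≤ n - 1`. -/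
def cOdd (n : ℕ) : List ℕ := (List.range n).filter fun i => i % 2 = 1

/-- The word `s_2 s_4 ⋯` of all even letters `≤ n - 1` (and `≥ 2`). -/
def cEven (n : ℕ) : List ℕ := (List.range n).filter fun i => 1 ≤ i ∧ i % 2 = 0

/-- The product of the word `w`. -/
def wordProd (n : ℕ) (w : List ℕ) : Perm (Fin n) := (w.map (s n)).prod

/-- The Coxeter element `c = c_odd c_even`. -/
def cox (n : ℕ) : Perm (Fin n) := wordProd n (cOdd n) * wordProd n (cEven n)

/-- The word `i_p` : `2p` blocks `c_odd, c_even, c_odd, …, c_even`. -/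
def word (n p : ℕ) : List ℕ := (List.replicate p (cOdd n ++ cEven n)).flatten

/-- One commutation: exchange two adjacent letters `a`, `b` with `|a - b| ≥ 2`. -/
def CommStep (w w' : List ℕ) : Prop :=
  ∃ (u v : List ℕ) (a b : ℕ), (a + 2 ≤ b ∨ b + 2 ≤ a) ∧
    w = u ++ a :: b :: v ∧ w' = u ++ b :: a :: v

/-- The commutation class of a word. -/
def commClass (w : List ℕ) : Set (List ℕ) := {w' | Relation.ReflTransGen CommStep w w'}

/-- The set `Pre(C)` of all products of prefixes of words in `C`. -/
def Pre (n : ℕ) (C : Set (List ℕ)) : Set (Perm (Fin n)) :=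
  {x | ∃ w ∈ C, ∃ v, v <+: w ∧ x = wordProd n v}

/-- `a <_x b`: the entry `a` occurs before the entry `b` in the one-line notation of `x`. -/
def Before {n : ℕ} (x : Perm (Fin n)) (a b : Fin n) : Prop := x.symm a < x.symm b

/-- The majority relation `a ≺_D b` of the uniform tally on `D`. -/
def Maj {n : ℕ} (D : Set (Perm (Fin n))) (a b : Fin n) : Prop :=
  {x ∈ D | Before x b a}.ncard < {x ∈ D | Before x a b}.ncard

/-- The domain `D_{n,p}`. -/
def dom (n p : ℕ) : Set (Perm (Fin n)) := Pre n (commClass (word n p))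

/-- The permutation `u_p`: the product of the first `p` blocks. -/
def u (n p : ℕ) : Perm (Fin n) :=
  if p % 2 = 0 then cox n ^ (p / 2) else cox n ^ ((p - 1) / 2) * wordProd n (cOdd n)

/-! ## Blocks and rows -/

/-- the block number `t` (letters congruent to `t` modulo two) -/
def block (n t : ℕ) : List ℕ := (List.range n).filter fun i => 1 ≤ i ∧ i % 2 = t % 2

/-- the first `T` blocks -/
def rows (n : ℕ) : ℕ → List ℕ
  | 0 => []
  | T + 1 => rows n T ++ block n (T + 1)

theorem wordProd_nil (n : ℕ) : wordProd n [] = 1 := rfl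

theorem wordProd_append (n : ℕ) (v w : List ℕ) :
    wordProd n (v ++ w) = wordProd n v * wordProd n w := by
  simp [wordProd]

theorem wordProd_singleton (n i : ℕ) : wordProd n [i] = s n i := by
  simp [wordProd]

theorem block_odd (n t : ℕ) (ht : t % 2 = 1) : block n t = cOdd n := by
  unfold block cOdd
  rw [ht]
  apply List.filter_congr
  intro i _
  by_cases h : i % 2 = 1
  · have : 1 ≤ i := by omega
    simp [h, this]
  · simp [h]

theorem block_even (n t : ℕ) (ht : t % 2 = 0) : block n t = cEven n := by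
  unfold block cEven
  rw [ht]

theorem word_eq_rows (n p : ℕ) : word n p = rows n (2 * p) := by
  induction p with
  | zero => simp [word, rows]
  | succ p ih =>
    have h1 : word n (p + 1) = word n p ++ (cOdd n ++ cEven n) := by
      unfold word
      rw [List.replicate_succ', List.flatten_concat]
    rw [h1, ih, show 2 * (p + 1) = 2 * p + 1 + 1 by ring, rows, rows,
      block_odd n (2 * p + 1) (by omega), block_even n (2 * p + 1 + 1) (by omega),
      List.append_assoc]

theorem u_eq_rows (n p : ℕ) : u n p = wordProd n (rows n p) := by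
  have key : ∀ k, wordProd n (rows n (2 * k)) = cox n ^ k := by
    intro k
    induction k with
    | zero => simp [rows, wordProd_nil]
    | succ k ih =>
      rw [show 2 * (k + 1) = 2 * k + 1 + 1 by ring, rows, rows,
        block_odd n (2 * k + 1) (by omega), block_even n (2 * k + 1 + 1) (by omega),
        wordProd_append, wordProd_append, ih, pow_succ, cox, mul_assoc]
  unfold u
  split_ifs with h
  · rw [← key]
    congr 2
    omega
  · rw [← key]
    conv_rhs => rw [show p = 2 * ((p - 1) / 2) + 1 by omega]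
    rw [rows, wordProd_append, block_odd n _ (by omega)]

/-! ## The explicit position formula -/

theorem s_succ {n j : ℕ} (h : j + 1 < n) :
    s n (j + 1) = swap (⟨j, by omega⟩ : Fin n) ⟨j + 1, h⟩ := by
  unfold s
  rw [dif_pos ⟨by omega, h⟩]
  rfl

/-- entry at place `q` after `T` complete rows (everything counted from zero) -/
def E (n T q : ℕ) : ℕ :=
  if (q + T) % 2 = 0 then (if T ≤ q then q - T else T - q - 1)
  else (if q + T + 1 ≤ n then q + T else 2 * n - 1 - q - T)

theorem E_lt {n T j : ℕ} (hT : T < n) (hj : j + 1 < n) (hp : T % 2 = j % 2) :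
    E n T j < E n T (j + 1) := by
  unfold E
  split_ifs <;> omega

theorem E_bound {n T q : ℕ} (hT : T ≤ n) (hq : q < n) : E n T q < n := by
  unfold E
  split_ifs <;> omega

/-- Crossing of the values `a < b` in row `T`, column `j`. -/
def Cr (n a b j T : ℕ) : Prop :=
  j + 1 < n ∧ T % 2 = j % 2 ∧ T < n ∧ a = E n T j ∧ b = E n T (j + 1)

theorem Cr_char {n a b j T : ℕ} (h : Cr n a b j T) :
    (a + T = j ∨ a + j + 1 = T) ∧ (b = j + 1 + T ∨ b + j + T + 2 = 2 * n) ∧ T % 2 = j % 2 := by
  obtain ⟨h1, h2, h3, h4, h5⟩ := h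
  refine ⟨?_, ?_, h2⟩
  · unfold E at h4
    split_ifs at h4 <;> omega
  · unfold E at h5
    split_ifs at h5 <;> omega

theorem Cr_unique {n a b j T j' T' : ℕ} (h : Cr n a b j T) (h' : Cr n a b j' T') :
    j = j' ∧ T = T' := by
  obtain ⟨h1, h2, h3⟩ := Cr_char h
  obtain ⟨g1, g2, g3⟩ := Cr_char h'
  omega

/-- The permutation `x` belongs to the height function `γ`. -/
structure R (n : ℕ) (γ : ℕ → ℕ) (x : Perm (Fin n)) : Prop where
  S : ∀ (q : Fin n) (T : ℕ),
    (∀ j, j + 1 < n → (j + 1 = q.val ∨ j = q.val) → T ≤ γ j ∧ γ j ≤ T + 1) →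
      (x q).val = E n T q.val
  I : ∀ a b : Fin n, a < b →
    (x.symm b < x.symm a ↔ ∃ j T, T < γ j ∧ Cr n a.val b.val j T)

theorem R_nil {n : ℕ} (hn : 2 ≤ n) : R n (fun j => j % 2) 1 where
  S := by
    intro q T hT
    have h1 := hT q.val
    have h2 := hT (q.val - 1)
    have hq := q.2
    simp only [Perm.coe_one, id_eq]
    unfold E
    split_ifs <;> omega
  I := by
    intro a b hab
    constructor
    · intro h
      exact absurd hab (not_lt.mpr (le_of_lt h))
    · rintro ⟨j, T, h1, h2, h3, h4, h5⟩
      omega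

theorem swap_lt_iff {n j : ℕ} (h : j + 1 < n) (a b : Fin n)
    (h1 : ¬ (a.val = j ∧ b.val = j + 1)) (h2 : ¬ (a.val = j + 1 ∧ b.val = j)) :
    (swap (⟨j, by omega⟩ : Fin n) ⟨j + 1, h⟩ a < swap (⟨j, by omega⟩ : Fin n) ⟨j + 1, h⟩ b ↔
      a < b) := by
  have key : ∀ c : Fin n, (swap (⟨j, by omega⟩ : Fin n) ⟨j + 1, h⟩ c).val =
      if c.val = j then j + 1 else if c.val = j + 1 then j else c.val := by
    intro c
    rw [swap_apply_def]
    split_ifs with h3 h4 h5 h6 <;> simp_all [Fin.ext_iff]
  rw [Fin.lt_def, Fin.lt_def, key, key]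
  split_ifs <;> omega

theorem R_step {n p : ℕ} (hp : 2 * p ≤ n) {γ γ' : ℕ → ℕ} {x : Perm (Fin n)} {j0 : ℕ}
    (hj0 : j0 + 1 < n) (hγ' : ∀ j, γ' j = if j = j0 then γ j + 2 else γ j)
    (par : ∀ j, γ j % 2 = j % 2)
    (adj : ∀ j, j + 2 < n → (γ (j + 1) = γ j + 1 ∨ γ j = γ (j + 1) + 1))
    (adj' : ∀ j, j + 2 < n → (γ' (j + 1) = γ' j + 1 ∨ γ' j = γ' (j + 1) + 1))
    (bd : γ' j0 ≤ 2 * p + 1) (h : R n γ x) : R n γ' (x * s n (j0 + 1)) := by
  have hj0' : j0 < n := Nat.lt_of_succ_lt hj0
  have hself : γ' j0 = γ j0 + 2 := by rw [hγ', if_pos rfl]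
  have hoth : ∀ j, j ≠ j0 → γ' j = γ j := fun j hj => by rw [hγ', if_neg hj]
  have parj := par j0
  -- neighbours
  have nbR : j0 + 2 < n → γ (j0 + 1) = γ j0 + 1 := by
    intro h1
    have a1 := adj j0 h1
    have a2 := adj' j0 h1
    rw [hself, hoth (j0 + 1) (by omega)] at a2
    omega
  have nbL : ∀ j, j + 1 = j0 → γ j = γ j0 + 1 := by
    intro j hj
    subst hj
    have a1 := adj j (by omega)
    have a2 := adj' j (by omega)
    rw [hself, hoth j (by omega)] at a2
    omega
  have htn : γ j0 < n := by
    have : γ j0 + 2 ≤ 2 * p + 1 := by rw [← hself]; exact bd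
    omega
  have hx1 : (x ⟨j0 + 1, hj0⟩).val = E n (γ j0) (j0 + 1) := by
    refine h.S _ _ ?_
    intro j hj hq
    rcases hq with hq | hq
    · have : j = j0 := by simpa using hq
      subst this
      omega
    · have : j = j0 + 1 := hq
      subst this
      have := nbR (by omega)
      omega
  have hx0 : (x ⟨j0, by omega⟩).val = E n (γ j0) j0 := by
    refine h.S _ _ ?_
    intro j hj hq
    rcases hq with hq | hq
    · have : j + 1 = j0 := hq
      have := nbL j this
      omega
    · have : j = j0 := hq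
      subst this
      omega
  have hlt := E_lt htn hj0 parj
  rw [s_succ hj0]
  constructor
  · intro q T hT
    rw [Perm.coe_mul, Function.comp_apply]
    by_cases hq0 : q.val = j0
    · have hq : q = ⟨j0, hj0'⟩ := Fin.ext hq0
      subst hq
      rw [swap_apply_left, hx1]
      have c1 := hT j0 hj0 (Or.inr rfl)
      rw [hself] at c1
      have c2 : ∀ j, j + 1 = j0 → T ≤ γ j0 + 1 := by
        intro j hj
        have := (hT j (by omega) (Or.inl hj)).1
        rw [hoth j (by omega), nbL j hj] at this
        exact this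
      have c3 := c2 (j0 - 1)
      change E n (γ j0) (j0 + 1) = E n T j0
      unfold E
      split_ifs <;> omega
    · by_cases hq1 : q.val = j0 + 1
      · have hq : q = ⟨j0 + 1, hj0⟩ := Fin.ext hq1
        subst hq
        rw [swap_apply_right, hx0]
        have c1 := hT j0 hj0 (Or.inl rfl)
        rw [hself] at c1
        have c2 : j0 + 2 < n → T ≤ γ j0 + 1 := by
          intro hh
          have := (hT (j0 + 1) (by omega) (Or.inr rfl)).1
          rw [hoth (j0 + 1) (by omega), nbR hh] at this
          exact this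
        change E n (γ j0) j0 = E n T (j0 + 1)
        unfold E
        split_ifs <;> omega
      · rw [swap_apply_of_ne_of_ne (fun h => hq0 (by rw [h])) (fun h => hq1 (by rw [h]))]
        refine h.S q T ?_
        intro j hj hjq
        have := hT j hj hjq
        rwa [hoth j (by omega)] at this
  · intro a b hab
    have hsymm : ∀ c, (x * swap (⟨j0, by omega⟩ : Fin n) ⟨j0 + 1, hj0⟩).symm c =
        swap (⟨j0, by omega⟩ : Fin n) ⟨j0 + 1, hj0⟩ (x.symm c) := by
      intro c
      rfl
    rw [hsymm, hsymm]
    have hadd : ∀ j T, (T < γ' j ∧ Cr n a.val b.val j T) ↔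
        ((T < γ j ∧ Cr n a.val b.val j T) ∨ (j = j0 ∧ T = γ j0 ∧ Cr n a.val b.val j T)) := by
      intro j T
      by_cases hj : j = j0
      · subst hj
        rw [hself]
        constructor
        · rintro ⟨h1, h2⟩
          have := h2.2.1
          by_cases h3 : T < γ j
          · exact Or.inl ⟨h3, h2⟩
          · exact Or.inr ⟨rfl, by omega, h2⟩
        · rintro (⟨h1, h2⟩ | ⟨-, h1, h2⟩)
          · exact ⟨by omega, h2⟩
          · exact ⟨by omega, h2⟩
      · rw [hoth j hj]
        simp [hj]
    by_cases hA : (x.symm b).val = j0 ∧ (x.symm a).val = j0 + 1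
    · -- impossible
      exfalso
      have hb : x ⟨j0, hj0'⟩ = b := by
        have : x.symm b = ⟨j0, hj0'⟩ := Fin.ext hA.1
        rw [← this, Equiv.apply_symm_apply]
      have ha : x ⟨j0 + 1, hj0⟩ = a := by
        have : x.symm a = ⟨j0 + 1, hj0⟩ := Fin.ext hA.2
        rw [← this, Equiv.apply_symm_apply]
      rw [hb] at hx0
      rw [ha] at hx1
      have : a.val < b.val := hab
      omega
    · by_cases hB : (x.symm b).val = j0 + 1 ∧ (x.symm a).val = j0
      · have hb' : x.symm b = ⟨j0 + 1, hj0⟩ := Fin.ext hB.1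
        have ha' : x.symm a = ⟨j0, hj0'⟩ := Fin.ext hB.2
        have hb : x ⟨j0 + 1, hj0⟩ = b := by
          rw [← hb', Equiv.apply_symm_apply]
        have ha : x ⟨j0, hj0'⟩ = a := by
          rw [← ha', Equiv.apply_symm_apply]
        rw [hb] at hx1
        rw [ha] at hx0
        rw [hb', ha', swap_apply_left, swap_apply_right]
        constructor
        · intro _
          exact ⟨j0, γ j0, (hadd j0 (γ j0)).mpr
            (Or.inr ⟨rfl, rfl, hj0, parj, htn, hx0, hx1⟩)⟩
        · intro _
          exact Nat.lt_succ_self j0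
      · rw [swap_lt_iff hj0 _ _ hA hB, h.I a b hab]
        constructor
        · rintro ⟨j, T, h1⟩
          exact ⟨j, T, (hadd j T).mpr (Or.inl h1)⟩
        · rintro ⟨j, T, h1⟩
          rcases (hadd j T).mp h1 with h2 | ⟨rfl, rfl, h2⟩
          · exact ⟨j, T, h2⟩
          · exfalso
            apply hB
            have ha : x ⟨j, by omega⟩ = a := Fin.ext (hx0.trans h2.2.2.2.1.symm)
            have hb : x ⟨j + 1, hj0⟩ = b := Fin.ext (hx1.trans h2.2.2.2.2.symm)
            rw [← ha, ← hb]
            simp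

/-! ## Height functions of words -/

/-- height function of a word: the next row of column `j` -/
def ht (v : List ℕ) (j : ℕ) : ℕ := 2 * v.count (j + 1) + j % 2

/-- conditions satisfied by all prefixes of words in the class -/
structure Valid (n p : ℕ) (v : List ℕ) : Prop where
  letters : ∀ i ∈ v, 1 ≤ i ∧ i < n
  bd : ∀ j, j + 1 < n → ht v j ≤ 2 * p + 1
  adj : ∀ j, j + 2 < n → (ht v (j + 1) = ht v j + 1 ∨ ht v j = ht v (j + 1) + 1)

theorem prefix_append_cases {α : Type*} {v A B : List α} (h : v <+: A ++ B) :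
    v <+: A ∨ ∃ t, t <+: B ∧ v = A ++ t := by
  rw [List.prefix_iff_eq_take] at h
  rw [List.take_append] at h
  by_cases hl : v.length ≤ A.length
  · left
    rw [Nat.sub_eq_zero_of_le hl, List.take_zero, List.append_nil] at h
    rw [h]
    exact List.take_prefix _ _
  · right
    refine ⟨B.take (v.length - A.length), List.take_prefix _ _, ?_⟩
    rw [List.take_of_length_le (by omega)] at h
    exact h

theorem valid_congr {n p : ℕ} {v w : List ℕ} (h : ∀ i, v.count i = w.count i)
    (hv : Valid n p v) : Valid n p w := by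
  have hh : ∀ j, ht v j = ht w j := fun j => by unfold ht; rw [h]
  constructor
  · intro i hi
    apply hv.letters
    rw [← List.count_pos_iff, h, List.count_pos_iff]
    exact hi
  · intro j hj
    rw [← hh]; exact hv.bd j hj
  · intro j hj
    rw [← hh, ← hh]; exact hv.adj j hj

theorem beq_ite (a i : ℕ) : (if (a == i) = true then 1 else 0) = if i = a then 1 else 0 := by
  by_cases h : i = a
  · subst h; simp
  · have : ¬ a = i := fun h' => h h'.symm
    simp [h, this]

theorem allValid_step {n p : ℕ} {w w' : List ℕ} (hs : CommStep w w')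
    (h : ∀ v, v <+: w → Valid n p v) : ∀ v, v <+: w' → Valid n p v := by
  obtain ⟨x, y, a, b, hab, rfl, rfl⟩ := hs
  intro v hv
  rcases prefix_append_cases hv with h1 | ⟨t, h1, rfl⟩
  · exact h v (h1.trans (List.prefix_append _ _))
  · cases t with
    | nil =>
      rw [List.append_nil]
      exact h x (List.prefix_append _ _)
    | cons c t =>
      rw [List.cons_prefix_cons] at h1
      obtain ⟨rfl, h1⟩ := h1
      cases t with
      | nil =>
        have e0 := h x (List.prefix_append _ _)
        have e1 := h (x ++ [a, c]) (by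
          rw [List.prefix_append_right_inj, List.cons_prefix_cons, List.cons_prefix_cons]
          exact ⟨rfl, rfl, List.nil_prefix⟩)
        have cnt : ∀ i, (x ++ [c]).count i = x.count i + if i = c then 1 else 0 := by
          intro i
          rw [List.count_append, List.count_singleton, beq_ite]
        have cnt2 : ∀ i, (x ++ [a, c]).count i =
            x.count i + (if i = a then 1 else 0) + if i = c then 1 else 0 := by
          intro i
          rw [List.count_append, List.count_cons, List.count_singleton, beq_ite, beq_ite]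
          omega
        constructor
        · intro i hi
          apply e1.letters
          simp only [List.mem_append, List.mem_cons, List.not_mem_nil, or_false] at hi ⊢
          tauto
        · intro j hj
          have b0 := e0.bd j hj
          have b1 := e1.bd j hj
          unfold ht at b0 b1 ⊢
          rw [cnt]
          rw [cnt2] at b1
          split_ifs at b1 ⊢ <;> omega
        · intro j hj
          have b0 := e0.adj j hj
          have b1 := e1.adj j hj
          unfold ht at b0 b1 ⊢
          rw [cnt, cnt]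
          rw [cnt2, cnt2] at b1
          split_ifs at b1 ⊢ <;> omega
      | cons d t =>
        rw [List.cons_prefix_cons] at h1
        obtain ⟨rfl, h1⟩ := h1
        have e1 := h (x ++ d :: c :: t) (by
          rw [List.prefix_append_right_inj, List.cons_prefix_cons, List.cons_prefix_cons]
          exact ⟨rfl, rfl, h1⟩)
        refine valid_congr ?_ e1
        intro i
        simp only [List.count_append, List.count_cons]
        omega

theorem count_block (n t i : ℕ) (hi : 1 ≤ i) (hin : i < n) :
    (block n t).count i = if i % 2 = t % 2 then 1 else 0 := by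
  unfold block
  split_ifs with h
  · rw [List.count_filter (by simp [hi, h])]
    exact List.count_eq_one_of_mem List.nodup_range (List.mem_range.mpr hin)
  · rw [List.count_eq_zero]
    simp [h]

theorem mem_block {n t i : ℕ} (h : i ∈ block n t) : 1 ≤ i ∧ i < n := by
  unfold block at h
  simp only [List.mem_filter, List.mem_range, decide_eq_true_eq] at h
  exact ⟨h.2.1, h.1⟩

theorem count_rows (n T j : ℕ) (hj : j + 1 < n) :
    (rows n T).count (j + 1) = (T + 1 - j % 2) / 2 := by
  induction T with
  | zero => simp [rows]; omega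
  | succ T ih =>
    rw [rows, List.count_append, ih, count_block n _ _ (by omega) hj]
    split_ifs <;> omega

theorem mem_rows {n T i : ℕ} (h : i ∈ rows n T) : 1 ≤ i ∧ i < n := by
  induction T with
  | zero => simp [rows] at h
  | succ T ih =>
    rw [rows, List.mem_append] at h
    rcases h with h | h
    · exact ih h
    · exact mem_block h

theorem valid_rows_append {n p T : ℕ} (hT : T + 1 ≤ 2 * p) {t : List ℕ}
    (ht' : t <+: block n (T + 1)) : Valid n p (rows n T ++ t) := by
  have hc : ∀ j, j + 1 < n → t.count (j + 1) ≤ if (j + 1) % 2 = (T + 1) % 2 then 1 else 0 := by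
    intro j hj
    rw [← count_block n (T + 1) (j + 1) (by omega) hj]
    exact ht'.sublist.count_le _
  constructor
  · intro i hi
    rw [List.mem_append] at hi
    rcases hi with hi | hi
    · exact mem_rows hi
    · exact mem_block (ht'.subset hi)
  · intro j hj
    have := hc j hj
    unfold ht
    rw [List.count_append, count_rows n T j hj]
    split_ifs at this <;> omega
  · intro j hj
    have h1 := hc j (by omega)
    have h2 := hc (j + 1) (by omega)
    unfold ht
    rw [List.count_append, List.count_append, count_rows n T j (by omega),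
      count_rows n T (j + 1) (by omega)]
    split_ifs at h1 h2 <;> omega

theorem valid_nil {n p : ℕ} : Valid n p [] := by
  constructor
  · intro i hi; simp at hi
  · intro j _; unfold ht; simp; omega
  · intro j _; unfold ht; simp; omega

theorem allValid_rows {n p : ℕ} : ∀ T, T ≤ 2 * p → ∀ v, v <+: rows n T → Valid n p v := by
  intro T
  induction T with
  | zero =>
    intro _ v hv
    rw [rows, List.prefix_nil] at hv
    subst hv
    exact valid_nil
  | succ T ih =>
    intro hT v hv
    rw [rows] at hv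
    rcases prefix_append_cases hv with h1 | ⟨t, h1, rfl⟩
    · exact ih (by omega) v h1
    · exact valid_rows_append hT h1

theorem allValid_class {n p : ℕ} {w : List ℕ} (hw : w ∈ commClass (word n p)) :
    ∀ v, v <+: w → Valid n p v := by
  unfold commClass at hw
  change Relation.ReflTransGen CommStep (word n p) w at hw
  induction hw with
  | refl => rw [word_eq_rows]; exact allValid_rows _ le_rfl
  | tail _ hs ih => exact allValid_step hs ih

/-- every valid word has the permutation belonging to its height function -/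
theorem R_of_valid {n p : ℕ} (hp : 2 * p ≤ n) (hn : 2 ≤ n) :
    ∀ v : List ℕ, (∀ t, t <+: v → Valid n p t) → R n (ht v) (wordProd n v) := by
  intro v
  induction v using List.reverseRecOn with
  | nil =>
    intro _
    have : ht [] = fun j => j % 2 := by
      funext j
      simp [ht]
    rw [this]
    exact R_nil hn
  | append_singleton v i ih =>
    intro h
    have h0 := h v (List.prefix_append _ _)
    have h1 := h (v ++ [i]) List.prefix_rfl
    have hi := h1.letters i (by simp)
    obtain ⟨j0, rfl⟩ : ∃ j0, i = j0 + 1 := ⟨i - 1, by omega⟩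
    have ih' := ih (fun t ht' => h t (ht'.trans (List.prefix_append _ _)))
    have hg : ∀ j, ht (v ++ [j0 + 1]) j = if j = j0 then ht v j + 2 else ht v j := by
      intro j
      unfold ht
      rw [List.count_append, List.count_singleton]
      by_cases hj : j = j0
      · subst hj; simp; ring
      · have : ¬ (j0 + 1 = j + 1) := by omega
        simp [hj]
        omega
    rw [wordProd_append, wordProd_singleton]
    refine R_step hp hi.2 hg ?_ h0.adj h1.adj ?_ ih'
    · intro j
      unfold ht
      omega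
    · exact h1.bd j0 hi.2

/-! ## Every height function occurs -/

theorem comm_append_left (x : List ℕ) {w w' : List ℕ}
    (h : Relation.ReflTransGen CommStep w w') :
    Relation.ReflTransGen CommStep (x ++ w) (x ++ w') := by
  induction h with
  | refl => exact Relation.ReflTransGen.refl
  | tail _ hs ih =>
    refine ih.tail ?_
    obtain ⟨u, v, a, b, hab, rfl, rfl⟩ := hs
    exact ⟨x ++ u, v, a, b, hab, by simp, by simp⟩

theorem comm_move (a : ℕ) (m : List ℕ) : ∀ l : List ℕ, (∀ b ∈ l, a + 2 ≤ b ∨ b + 2 ≤ a) →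
    Relation.ReflTransGen CommStep (a :: (l ++ m)) (l ++ a :: m) := by
  intro l
  induction l with
  | nil => intro _; exact Relation.ReflTransGen.refl
  | cons b l ih =>
    intro h
    have h1 : CommStep (a :: (b :: l ++ m)) (b :: a :: (l ++ m)) :=
      ⟨[], l ++ m, a, b, h b (by simp), rfl, rfl⟩
    refine Relation.ReflTransGen.head h1 ?_
    have h2 := comm_append_left [b] (ih (fun c hc => h c (by simp [hc])))
    simpa using h2

theorem comm_partition (P : ℕ × ℕ → Bool) : ∀ L : List (ℕ × ℕ),
    L.Pairwise (fun x y => P x = false → P y = true → (x.2 + 2 ≤ y.2 ∨ y.2 + 2 ≤ x.2)) →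
    Relation.ReflTransGen CommStep (L.map Prod.snd)
      ((L.filter P).map Prod.snd ++ (L.filter fun x => !P x).map Prod.snd) := by
  intro L
  induction L with
  | nil => intro _; exact Relation.ReflTransGen.refl
  | cons x L ih =>
    intro h
    rw [List.pairwise_cons] at h
    have ih' := comm_append_left [x.2] (ih h.2)
    by_cases hx : P x = true
    · simpa [List.filter_cons, hx] using ih'
    · have hx' : P x = false := by simpa using hx
      have h3 := comm_move x.2 ((L.filter fun x => !P x).map Prod.snd) ((L.filter P).map Prod.snd)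
        (by
          intro b hb
          rw [List.mem_map] at hb
          obtain ⟨y, hy, rfl⟩ := hb
          rw [List.mem_filter] at hy
          exact h.1 y hy.1 hx' hy.2)
      have ih'' : Relation.ReflTransGen CommStep ((x :: L).map Prod.snd)
          (x.2 :: ((L.filter P).map Prod.snd ++ (L.filter fun x => !P x).map Prod.snd)) := by
        simpa using ih'
      refine ih''.trans ?_
      simpa [List.filter_cons, hx'] using h3

/-- rows with labels -/
def lrows (n : ℕ) : ℕ → List (ℕ × ℕ)
  | 0 => []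
  | T + 1 => lrows n T ++ (block n (T + 1)).map fun i => (T, i)

theorem lrows_map (n T : ℕ) : (lrows n T).map Prod.snd = rows n T := by
  induction T with
  | zero => rfl
  | succ T ih => simp [lrows, rows, ih, Function.comp_def]

theorem mem_lrows {n T : ℕ} {x : ℕ × ℕ} (h : x ∈ lrows n T) :
    x.1 < T ∧ 1 ≤ x.2 ∧ x.2 < n ∧ x.2 % 2 = (x.1 + 1) % 2 := by
  induction T with
  | zero => simp [lrows] at h
  | succ T ih =>
    rw [lrows, List.mem_append] at h
    rcases h with h | h
    · have := ih h
      omega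
    · rw [List.mem_map] at h
      obtain ⟨i, hi, rfl⟩ := h
      have h1 := mem_block hi
      unfold block at hi
      simp only [List.mem_filter, List.mem_range, decide_eq_true_eq] at hi
      simp only
      omega

theorem lrows_pairwise (n T : ℕ) :
    (lrows n T).Pairwise (fun x y => x.1 < y.1 ∨ (x.1 = y.1 ∧ x.2 ≠ y.2)) := by
  induction T with
  | zero => simp [lrows]
  | succ T ih =>
    rw [lrows, List.pairwise_append]
    refine ⟨ih, ?_, ?_⟩
    · rw [List.pairwise_map]
      have : (block n (T + 1)).Nodup := List.Nodup.filter _ List.nodup_range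
      exact this.imp (fun h => Or.inr ⟨rfl, h⟩)
    · intro x hx y hy
      rw [List.mem_map] at hy
      obtain ⟨i, _, rfl⟩ := hy
      exact Or.inl (mem_lrows hx).1

/-- The height functions of the ideals. -/
def Hts (n p : ℕ) : Set (ℕ → ℕ) :=
  {γ | (∀ j, j + 1 < n → γ j % 2 = j % 2 ∧ γ j ≤ 2 * p + 1) ∧
    (∀ j, j + 2 < n → (γ (j + 1) = γ j + 1 ∨ γ j = γ (j + 1) + 1)) ∧
    ∀ j, n ≤ j + 1 → γ j = 0}

theorem count_filter_rows (n T j : ℕ) (γ : ℕ → ℕ) (hj : j + 1 < n) (hγ : γ j % 2 = j % 2) :
    (((lrows n T).filter fun x => decide (x.1 < γ (x.2 - 1))).map Prod.snd).count (j + 1) =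
      (min T (γ j) + 1 - j % 2) / 2 := by
  induction T with
  | zero => simp [lrows]; omega
  | succ T ih =>
    rw [lrows, List.filter_append, List.map_append, List.count_append, ih, List.filter_map,
      List.map_map]
    have h1 : (Prod.snd ∘ fun i : ℕ => (T, i)) = id := rfl
    rw [h1, List.map_id]
    by_cases hT : T < γ j
    · rw [List.count_filter (by simpa using hT), count_block n _ _ (by omega) hj]
      split_ifs <;> omega
    · have : List.count (j + 1) (List.filter
          ((fun x : ℕ × ℕ => decide (x.1 < γ (x.2 - 1))) ∘ fun i => (T, i))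
          (block n (T + 1))) = 0 := by
        rw [List.count_eq_zero, List.mem_filter]
        rintro ⟨-, h⟩
        simp at h
        exact hT h
      rw [this]
      omega

theorem R_congr {n : ℕ} {γ γ' : ℕ → ℕ} {x : Perm (Fin n)} (h : ∀ j, j + 1 < n → γ j = γ' j)
    (hR : R n γ x) : R n γ' x where
  S := by
    intro q T hT
    refine hR.S q T ?_
    intro j hj hq
    rw [h j hj]
    exact hT j hj hq
  I := by
    intro a b hab
    rw [hR.I a b hab]
    constructor
    · rintro ⟨j, T, h1, h2⟩
      exact ⟨j, T, by rwa [← h j h2.1], h2⟩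
    · rintro ⟨j, T, h1, h2⟩
      exact ⟨j, T, by rwa [h j h2.1], h2⟩

theorem exists_of_Hts {n p : ℕ} (hp : 2 * p ≤ n) (hn : 2 ≤ n) {γ : ℕ → ℕ} (hγ : γ ∈ Hts n p) :
    ∃ x ∈ dom n p, R n γ x := by
  obtain ⟨h1, h2, h3⟩ := hγ
  set P : ℕ × ℕ → Bool := fun x => decide (x.1 < γ (x.2 - 1)) with hP
  have hpart : Relation.ReflTransGen CommStep (word n p)
      (((lrows n (2 * p)).filter P).map Prod.snd ++
        ((lrows n (2 * p)).filter fun x => !P x).map Prod.snd) := by
    rw [word_eq_rows, ← lrows_map]
    apply comm_partition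
    refine (lrows_pairwise n (2 * p)).imp_of_mem ?_
    intro x y hx hy hxy hPx hPy
    have mx := mem_lrows hx
    have my := mem_lrows hy
    simp only [hP, decide_eq_false_iff_not, decide_eq_true_eq] at hPx hPy
    by_contra hcon
    push Not at hcon
    have a1 := h2 (x.2 - 1)
    have a2 := h2 (y.2 - 1)
    rcases lt_trichotomy x.2 y.2 with hlt | heq | hgt
    · have e : y.2 = x.2 + 1 := by omega
      have a1' := a1 (by omega)
      rw [show x.2 - 1 + 1 = y.2 - 1 by omega] at a1'
      omega
    · rw [heq] at hPx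
      omega
    · have e : x.2 = y.2 + 1 := by omega
      have a2' := a2 (by omega)
      rw [show y.2 - 1 + 1 = x.2 - 1 by omega] at a2'
      omega
  set v := ((lrows n (2 * p)).filter P).map Prod.snd with hv
  have hval := allValid_class (n := n) (p := p) hpart
  have hR := R_of_valid hp hn v (fun t ht' => hval t (ht'.trans (List.prefix_append _ _)))
  refine ⟨wordProd n v, ⟨_, hpart, v, List.prefix_append _ _, rfl⟩, R_congr ?_ hR⟩
  intro j hj
  have hc := count_filter_rows n (2 * p) j γ hj (h1 j hj).1
  have h4 := h1 j hj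
  unfold ht
  rw [hv, hP, hc]
  omega

theorem exists_of_dom {n p : ℕ} (hp : 2 * p ≤ n) (hn : 2 ≤ n) {x : Perm (Fin n)}
    (hx : x ∈ dom n p) : ∃ γ ∈ Hts n p, R n γ x := by
  obtain ⟨w, hw, v, hv, rfl⟩ := hx
  have hval := allValid_class hw
  have hR := R_of_valid hp hn v (fun t ht' => hval t (ht'.trans hv))
  have hvv := hval v hv
  refine ⟨fun j => if j + 1 < n then ht v j else 0, ⟨?_, ?_, ?_⟩, R_congr ?_ hR⟩
  · intro j hj
    simp only [if_pos hj]
    refine ⟨?_, hvv.bd j hj⟩
    unfold ht
    omega
  · intro j hj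
    simp only [if_pos (show j + 1 + 1 < n by omega), if_pos (show j + 1 < n by omega)]
    exact hvv.adj j hj
  · intro j hj
    simp only [if_neg (show ¬ j + 1 < n by omega)]
  · intro j hj
    simp only [if_pos hj]

theorem R_perm_unique {n p : ℕ} {γ : ℕ → ℕ} (hγ : γ ∈ Hts n p)
    {x y : Perm (Fin n)} (hx : R n γ x) (hy : R n γ y) : x = y := by
  obtain ⟨h1, h2, h3⟩ := hγ
  ext q
  have hT : ∃ T, ∀ j, j + 1 < n → (j + 1 = q.val ∨ j = q.val) → T ≤ γ j ∧ γ j ≤ T + 1 := by
    by_cases hq : q.val + 1 < n
    · by_cases hq0 : q.val = 0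
      · refine ⟨γ q.val, ?_⟩
        rintro j hj (h | h)
        · omega
        · rw [h]; omega
      · refine ⟨min (γ q.val) (γ (q.val - 1)), ?_⟩
        have a := h2 (q.val - 1) (by omega)
        rw [show q.val - 1 + 1 = q.val by omega] at a
        rintro j hj (h | h)
        · have : j = q.val - 1 := by omega
          rw [this]; omega
        · rw [h]; omega
    · refine ⟨γ (q.val - 1), ?_⟩
      rintro j hj (h | h)
      · have : j = q.val - 1 := by omega
        rw [this]; omega
      · omega
  obtain ⟨T, hT⟩ := hT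
  rw [hx.S q T hT, hy.S q T hT]

theorem R_ht_unique {n p : ℕ} (hp : 2 * p ≤ n) {γ γ' : ℕ → ℕ} (hγ : γ ∈ Hts n p)
    (hγ' : γ' ∈ Hts n p) {x : Perm (Fin n)} (hx : R n γ x) (hy : R n γ' x) : γ = γ' := by
  have key : ∀ {α β : ℕ → ℕ}, α ∈ Hts n p → β ∈ Hts n p → R n α x → R n β x →
      ∀ j, j + 1 < n → α j ≤ β j := by
    intro α β hα hβ rα rβ j hj
    by_contra hlt
    push Not at hlt
    have p1 := hα.1 j hj
    have p2 := hβ.1 j hj
    have hTn : β j < n := by omega
    have hcr : Cr n (E n (β j) j) (E n (β j) (j + 1)) j (β j) := ⟨hj, p2.1, hTn, rfl, rfl⟩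
    have hlt' := E_lt hTn hj p2.1
    have b1 : E n (β j) j < n := E_bound hTn.le (by omega)
    have b2 : E n (β j) (j + 1) < n := E_bound hTn.le hj
    have h1 := (rα.I ⟨E n (β j) j, b1⟩ ⟨E n (β j) (j + 1), b2⟩ hlt').mpr ⟨j, β j, hlt, hcr⟩
    obtain ⟨j', T', h2, h3⟩ := (rβ.I _ _ hlt').mp h1
    obtain ⟨e1, e2⟩ := Cr_unique hcr h3
    rw [← e1, ← e2] at h2
    exact lt_irrefl _ h2
  funext j
  by_cases hj : j + 1 < n
  · exact le_antisymm (key hγ hγ' hx hy j hj) (key hγ' hγ hy hx j hj)
  · rw [hγ.2.2 j (by omega), hγ'.2.2 j (by omega)]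

/-! ## Reflection -/

/-- `γ` avoids the level `l` between the columns `j0` and `j` -/
def Av (l j0 : ℕ) (γ : ℕ → ℕ) (j : ℕ) : Prop :=
  ∀ k, (j0 ≤ k ∧ k ≤ j) ∨ (j ≤ k ∧ k ≤ j0) → γ k ≠ l

open Classical in
/-- reflection of `γ` in the level `l`, on the maximal segment around `j0` avoiding `l` -/
noncomputable def refl (n l j0 : ℕ) (γ : ℕ → ℕ) (j : ℕ) : ℕ :=
  if j + 1 < n ∧ Av l j0 γ j then 2 * l - γ j else γ j

theorem refl_pos {n l j0 : ℕ} {γ : ℕ → ℕ} {j : ℕ} (h : j + 1 < n ∧ Av l j0 γ j) :
    refl n l j0 γ j = 2 * l - γ j := by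
  unfold refl; rw [if_pos h]

theorem refl_neg {n l j0 : ℕ} {γ : ℕ → ℕ} {j : ℕ} (h : ¬ (j + 1 < n ∧ Av l j0 γ j)) :
    refl n l j0 γ j = γ j := by
  unfold refl; rw [if_neg h]

theorem refl_mem {n p l j0 : ℕ} {γ : ℕ → ℕ} (hγ : γ ∈ Hts n p) (hj0 : j0 + 1 < n)
    (hb : ∀ j, j + 1 < n → Av l j0 γ j → γ j ≤ 2 * l ∧ 2 * l - γ j ≤ 2 * p + 1) :
    refl n l j0 γ ∈ Hts n p := by
  obtain ⟨h1, h2, h3⟩ := hγ
  refine ⟨?_, ?_, ?_⟩
  · intro j hj
    have a := h1 j hj
    unfold refl
    split_ifs with h
    · have := hb j hj h.2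
      omega
    · exact a
  · intro j hj
    have a := h2 j hj
    by_cases hA : Av l j0 γ j
    · have b1 := hb j (by omega) hA
      have r1 : refl n l j0 γ j = 2 * l - γ j := refl_pos ⟨by omega, hA⟩
      by_cases hB : Av l j0 γ (j + 1)
      · have b2 := hb (j + 1) (by omega) hB
        have r2 : refl n l j0 γ (j + 1) = 2 * l - γ (j + 1) := refl_pos ⟨by omega, hB⟩
        rw [r1, r2]
        omega
      · have r2 : refl n l j0 γ (j + 1) = γ (j + 1) := refl_neg (fun h => hB h.2)
        rw [r1, r2]
        have : γ (j + 1) = l := by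
          unfold Av at hA hB
          push Not at hB
          obtain ⟨k, hk, hkl⟩ := hB
          by_contra hne
          by_cases hkj : k = j + 1
          · rw [hkj] at hkl; exact hne hkl
          · exact hA k (by omega) hkl
        omega
    · have r1 : refl n l j0 γ j = γ j := refl_neg (fun h => hA h.2)
      by_cases hB : Av l j0 γ (j + 1)
      · have b2 := hb (j + 1) (by omega) hB
        have r2 : refl n l j0 γ (j + 1) = 2 * l - γ (j + 1) := refl_pos ⟨by omega, hB⟩
        rw [r1, r2]
        have : γ j = l := by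
          unfold Av at hA hB
          push Not at hA
          obtain ⟨k, hk, hkl⟩ := hA
          by_contra hne
          by_cases hkj : k = j
          · rw [hkj] at hkl; exact hne hkl
          · exact hB k (by omega) hkl
        omega
      · have r2 : refl n l j0 γ (j + 1) = γ (j + 1) := refl_neg (fun h => hB h.2)
        rw [r1, r2]
        exact a
  · intro j hj
    rw [refl_neg (fun h => by omega)]
    exact h3 j hj

theorem refl_Av {n l j0 : ℕ} {γ : ℕ → ℕ} (hj0 : j0 + 1 < n)
    (hb : ∀ j, j + 1 < n → Av l j0 γ j → γ j ≤ 2 * l) {j : ℕ} (hj : j + 1 < n) :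
    Av l j0 (refl n l j0 γ) j ↔ Av l j0 γ j := by
  have key : ∀ k, k + 1 < n → (refl n l j0 γ k = l ↔ γ k = l) := by
    intro k hk
    unfold refl
    split_ifs with h
    · have h1 := hb k hk h.2
      have h2 : γ k ≠ l := h.2 k (by omega)
      constructor
      · intro h3; omega
      · intro h3; exact absurd h3 h2
    · rfl
  unfold Av
  constructor
  · intro h k hk hkl
    exact h k hk ((key k (by omega)).mpr hkl)
  · intro h k hk hkl
    exact h k hk ((key k (by omega)).mp hkl)

theorem refl_refl {n l j0 : ℕ} {γ : ℕ → ℕ} (hj0 : j0 + 1 < n)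
    (hb : ∀ j, j + 1 < n → Av l j0 γ j → γ j ≤ 2 * l) :
    refl n l j0 (refl n l j0 γ) = γ := by
  funext j
  by_cases hj : j + 1 < n
  · have h := refl_Av hj0 hb hj
    by_cases hA : Av l j0 γ j
    · have e1 : refl n l j0 γ j = 2 * l - γ j := refl_pos ⟨hj, hA⟩
      rw [refl_pos ⟨hj, h.mpr hA⟩, e1]
      have := hb j hj hA
      omega
    · rw [refl_neg (fun h' => hA (h.mp h'.2)), refl_neg (fun h' => hA h'.2)]
  · rw [refl_neg (fun h' => hj h'.1), refl_neg (fun h' => hj h'.1)]

theorem side {n p l j0 : ℕ} {γ : ℕ → ℕ} (hγ : γ ∈ Hts n p) (hj0 : j0 + 1 < n) :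
    ∀ j, j + 1 < n → Av l j0 γ j →
      (γ j0 < l → γ j < l) ∧ (l < γ j0 → l < γ j) := by
  have up : ∀ d, j0 + d + 1 < n → Av l j0 γ (j0 + d) →
      (γ j0 < l → γ (j0 + d) < l) ∧ (l < γ j0 → l < γ (j0 + d)) := by
    intro d
    induction d with
    | zero => intro _ _; exact ⟨id, id⟩
    | succ d ih =>
      intro hd hA
      have ih' := ih (by omega) (fun k hk => hA k (by omega))
      have hne := hA (j0 + (d + 1)) (by omega)
      have ha := hγ.2.1 (j0 + d) (by omega)
      rw [show j0 + d + 1 = j0 + (d + 1) by ring] at ha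
      omega
  have down : ∀ d, d ≤ j0 → Av l j0 γ (j0 - d) →
      (γ j0 < l → γ (j0 - d) < l) ∧ (l < γ j0 → l < γ (j0 - d)) := by
    intro d
    induction d with
    | zero => intro _ _; exact ⟨id, id⟩
    | succ d ih =>
      intro hd hA
      have ih' := ih (by omega) (fun k hk => hA k (by omega))
      have hne := hA (j0 - (d + 1)) (by omega)
      have ha := hγ.2.1 (j0 - (d + 1)) (by omega)
      rw [show j0 - (d + 1) + 1 = j0 - d by omega] at ha
      omega
  intro j hj hA
  rcases le_total j0 j with h | h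
  · obtain ⟨d, rfl⟩ := Nat.exists_eq_add_of_le h
    exact up d (by omega) hA
  · have := down (j0 - j) (by omega)
    rw [show j0 - (j0 - j) = j by omega] at this
    exact this hA

theorem Hts_finite {n p : ℕ} (hp : 2 * p ≤ n) (hn : 2 ≤ n) : (Hts n p).Finite := by
  choose! X hX using fun γ (hγ : γ ∈ Hts n p) => exists_of_Hts hp hn hγ
  refine Set.Finite.of_finite_image (f := X) (Set.toFinite _) ?_
  intro γ hγ γ' hγ' h
  have h1 := (hX γ hγ).2
  have h2 := (hX γ' hγ').2
  rw [← h] at h2
  exact R_ht_unique hp hγ hγ' h1 h2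

/-- In the first half of the rows, more than half of the ideals contain a given element. -/
theorem count_low {n p : ℕ} (hp : 2 * p ≤ n) (hn : 3 ≤ n) {j T : ℕ} (hj : j + 1 < n)
    (hT : T < p) :
    {γ ∈ Hts n p | ¬ T < γ j}.ncard < {γ ∈ Hts n p | T < γ j}.ncard := by
  have hfin := Hts_finite hp (by omega : 2 ≤ n)
  set S1 : Set (ℕ → ℕ) := {γ ∈ Hts n p | γ j < p} with hS1
  set S2 : Set (ℕ → ℕ) := {γ ∈ Hts n p | p < γ j} with hS2
  have f1 : S1.Finite := hfin.subset (fun γ h => h.1)
  have f2 : S2.Finite := hfin.subset (fun γ h => h.1)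
  have hb : ∀ γ ∈ S1, ∀ k, k + 1 < n → Av p j γ k → γ k < p := by
    intro γ hγ k hk hA
    exact (side hγ.1 hj k hk hA).1 hγ.2
  have hmap : refl n p j '' S1 ⊆ S2 := by
    rintro _ ⟨γ, hγ, rfl⟩
    refine ⟨refl_mem hγ.1 hj (fun k hk hA => ?_), ?_⟩
    · have := hb γ hγ k hk hA
      omega
    · have hA : Av p j γ j := by
        intro k hk
        have : k = j := by omega
        rw [this]
        exact hγ.2.ne
      unfold refl
      rw [if_pos ⟨hj, hA⟩]
      have := hγ.2
      omega
  have hinj : Set.InjOn (refl n p j) S1 := by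
    intro γ hγ γ' hγ' h
    have q1 := refl_refl hj (fun k hk hA => by have := hb γ hγ k hk hA; omega)
    have q2 := refl_refl hj (fun k hk hA => by have := hb γ' hγ' k hk hA; omega)
    rw [← q1, h, q2]
  have hstrict : ∃ δ ∈ S2, δ ∉ refl n p j '' S1 := by
    refine ⟨fun k => if k + 1 < n then 2 * p + k % 2 else 0, ⟨⟨?_, ?_, ?_⟩, ?_⟩, ?_⟩
    · intro k hk
      simp only [if_pos hk]
      omega
    · intro k hk
      simp only [if_pos (show k + 1 + 1 < n by omega), if_pos (show k + 1 < n by omega)]
      omega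
    · intro k hk
      simp only [if_neg (show ¬ k + 1 < n by omega)]
    · simp only [if_pos hj]
      omega
    · rintro ⟨γ, hγ, h⟩
      have h1 : γ = refl n p j (fun k => if k + 1 < n then 2 * p + k % 2 else 0) := by
        rw [← h, refl_refl hj (fun k hk hA => by have := hb γ hγ k hk hA; omega)]
      have h2 : γ 1 = 0 := by
        rw [h1]
        unfold refl
        rw [if_pos]
        · simp only [if_pos (show 1 + 1 < n by omega)]
          omega
        · refine ⟨by omega, ?_⟩
          intro k hk
          simp only [if_pos (show k + 1 < n by omega)]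
          omega
      have := (hγ.1.1 1 (by omega)).1
      omega
  obtain ⟨δ, hδ, hδ'⟩ := hstrict
  have c1 : {γ ∈ Hts n p | ¬ T < γ j}.ncard ≤ S1.ncard := by
    refine Set.ncard_le_ncard ?_ f1
    rintro γ ⟨h1, h2⟩
    exact ⟨h1, by omega⟩
  have c2 : S1.ncard < S2.ncard := by
    rw [← hinj.ncard_image]
    refine Set.ncard_lt_ncard ?_ f2
    exact ⟨hmap, fun hsub => hδ' (hsub hδ)⟩
  have c3 : S2.ncard ≤ {γ ∈ Hts n p | T < γ j}.ncard := by
    refine Set.ncard_le_ncard ?_ (hfin.subset (fun γ h => h.1))
    rintro γ ⟨h1, h2⟩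
    exact ⟨h1, by omega⟩
  omega

/-- In the second half of the rows, fewer than half of the ideals contain a given element. -/
theorem count_high {n p : ℕ} (hp : 2 * p ≤ n) (hp1 : 1 ≤ p) (hn : 2 ≤ n) {j T : ℕ}
    (hj : j + 1 < n) (hpar : T % 2 = j % 2) (hT : p ≤ T) :
    {γ ∈ Hts n p | T < γ j}.ncard < {γ ∈ Hts n p | ¬ T < γ j}.ncard := by
  have hfin := Hts_finite hp hn
  set S1 : Set (ℕ → ℕ) := {γ ∈ Hts n p | p + 1 < γ j} with hS1
  set S2 : Set (ℕ → ℕ) := {γ ∈ Hts n p | γ j < p + 1} with hS2
  have f1 : S1.Finite := hfin.subset (fun γ h => h.1)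
  have f2 : S2.Finite := hfin.subset (fun γ h => h.1)
  have hb : ∀ γ ∈ S1, ∀ k, k + 1 < n → Av (p + 1) j γ k → p + 1 < γ k ∧ γ k ≤ 2 * p + 1 := by
    intro γ hγ k hk hA
    exact ⟨(side hγ.1 hj k hk hA).2 hγ.2, (hγ.1.1 k hk).2⟩
  have hmap : refl n (p + 1) j '' S1 ⊆ S2 := by
    rintro _ ⟨γ, hγ, rfl⟩
    refine ⟨refl_mem hγ.1 hj (fun k hk hA => ?_), ?_⟩
    · have := hb γ hγ k hk hA
      omega
    · have hA : Av (p + 1) j γ j := by
        intro k hk
        have : k = j := by omega
        rw [this]
        exact hγ.2.ne'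
      unfold refl
      rw [if_pos ⟨hj, hA⟩]
      have := hb γ hγ j hj hA
      omega
  have hinj : Set.InjOn (refl n (p + 1) j) S1 := by
    intro γ hγ γ' hγ' h
    have q1 := refl_refl hj (fun k hk hA => by have := hb γ hγ k hk hA; omega)
    have q2 := refl_refl hj (fun k hk hA => by have := hb γ' hγ' k hk hA; omega)
    rw [← q1, h, q2]
  have hstrict : ∃ δ ∈ S2, δ ∉ refl n (p + 1) j '' S1 := by
    refine ⟨fun k => if k + 1 < n then k % 2 else 0, ⟨⟨?_, ?_, ?_⟩, ?_⟩, ?_⟩
    · intro k hk
      simp only [if_pos hk]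
      omega
    · intro k hk
      simp only [if_pos (show k + 1 + 1 < n by omega), if_pos (show k + 1 < n by omega)]
      omega
    · intro k hk
      simp only [if_neg (show ¬ k + 1 < n by omega)]
    · simp only [if_pos hj]
      omega
    · rintro ⟨γ, hγ, h⟩
      have h1 : γ = refl n (p + 1) j (fun k => if k + 1 < n then k % 2 else 0) := by
        rw [← h, refl_refl hj (fun k hk hA => by have := hb γ hγ k hk hA; omega)]
      have h2 : γ 0 = 2 * p + 2 := by
        rw [h1]
        unfold refl
        rw [if_pos]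
        · simp only [if_pos (show 0 + 1 < n by omega)]
          omega
        · refine ⟨by omega, ?_⟩
          intro k hk
          simp only [if_pos (show k + 1 < n by omega)]
          omega
      have := (hγ.1.1 0 (by omega)).2
      omega
  obtain ⟨δ, hδ, hδ'⟩ := hstrict
  have c1 : {γ ∈ Hts n p | T < γ j}.ncard ≤ S1.ncard := by
    refine Set.ncard_le_ncard ?_ f1
    rintro γ ⟨h1, h2⟩
    have := (h1.1 j hj).1
    exact ⟨h1, by omega⟩
  have c2 : S1.ncard < S2.ncard := by
    rw [← hinj.ncard_image]
    refine Set.ncard_lt_ncard ?_ f2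
    exact ⟨hmap, fun hsub => hδ' (hsub hδ)⟩
  have c3 : S2.ncard ≤ {γ ∈ Hts n p | ¬ T < γ j}.ncard := by
    refine Set.ncard_le_ncard ?_ (hfin.subset (fun γ h => h.1))
    rintro γ ⟨h1, h2⟩
    exact ⟨h1, by omega⟩
  omega

/-! ## Conclusion -/

/-- Counting in the domain is counting height functions. -/
theorem ncard_dom {n p : ℕ} (hp : 2 * p ≤ n) (hn : 2 ≤ n) (Q : Perm (Fin n) → Prop)
    (Q' : (ℕ → ℕ) → Prop) (h : ∀ γ ∈ Hts n p, ∀ x, R n γ x → (Q x ↔ Q' γ)) :
    {x ∈ dom n p | Q x}.ncard = {γ ∈ Hts n p | Q' γ}.ncard := by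
  choose! X hX using fun γ (hγ : γ ∈ Hts n p) => exists_of_Hts hp hn hγ
  have himg : {x ∈ dom n p | Q x} = X '' {γ ∈ Hts n p | Q' γ} := by
    ext x
    constructor
    · rintro ⟨hx, hq⟩
      obtain ⟨γ, hγ, hR⟩ := exists_of_dom hp hn hx
      exact ⟨γ, ⟨hγ, (h γ hγ x hR).mp hq⟩, R_perm_unique hγ (hX γ hγ).2 hR⟩
    · rintro ⟨γ, ⟨hγ, hq⟩, rfl⟩
      exact ⟨(hX γ hγ).1, (h γ hγ _ (hX γ hγ).2).mpr hq⟩
  rw [himg, Set.InjOn.ncard_image]
  intro γ hγ γ' hγ' he
  have h1 := (hX γ hγ.1).2
  have h2 := (hX γ' hγ'.1).2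
  rw [← he] at h2
  exact R_ht_unique hp hγ.1 hγ'.1 h1 h2

theorem R_u {n p : ℕ} (hp : 2 * p ≤ n) (hn : 2 ≤ n) :
    R n (ht (rows n p)) (u n p) := by
  rw [u_eq_rows]
  exact R_of_valid hp hn _ (fun t ht' => allValid_rows p (by omega) t ht')

theorem before_or {n : ℕ} (x : Perm (Fin n)) {a b : Fin n} (hab : a ≠ b) :
    Before x a b ↔ ¬ Before x b a := by
  unfold Before
  rw [not_lt]
  constructor
  · exact le_of_lt
  · intro h
    exact lt_of_le_of_ne h (fun h' => hab (x.symm.injective h'))

/-- The key statement for `a < b`. -/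
theorem key {n p : ℕ} (hn : 3 ≤ n) (hp1 : 1 ≤ p) (hp : 2 * p ≤ n) {a b : Fin n} (hab : a < b) :
    (Before (u n p) b a → {x ∈ dom n p | Before x a b}.ncard <
      {x ∈ dom n p | Before x b a}.ncard) ∧
    (Before (u n p) a b → {x ∈ dom n p | Before x b a}.ncard <
      {x ∈ dom n p | Before x a b}.ncard) := by
  have hn2 : 2 ≤ n := by omega
  have hu := (R_u hp hn2).I a b hab
  by_cases hex : ∃ j T, T < 2 * p ∧ Cr n a.val b.val j T
  · obtain ⟨j, T, hT, hcr⟩ := hex
    have hj := hcr.1
    have e1 : {x ∈ dom n p | Before x b a}.ncard = {γ ∈ Hts n p | T < γ j}.ncard := by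
      refine ncard_dom hp hn2 _ _ ?_
      intro γ hγ x hR
      unfold Before
      rw [hR.I a b hab]
      constructor
      · rintro ⟨j', T', h1, h2⟩
        obtain ⟨rfl, rfl⟩ := Cr_unique hcr h2
        exact h1
      · intro h
        exact ⟨j, T, h, hcr⟩
    have e2 : {x ∈ dom n p | Before x a b}.ncard = {γ ∈ Hts n p | ¬ T < γ j}.ncard := by
      refine ncard_dom hp hn2 _ _ ?_
      intro γ hγ x hR
      rw [before_or x hab.ne]
      unfold Before
      rw [hR.I a b hab]
      apply not_congr
      constructor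
      · rintro ⟨j', T', h1, h2⟩
        obtain ⟨rfl, rfl⟩ := Cr_unique hcr h2
        exact h1
      · intro h
        exact ⟨j, T, h, hcr⟩
    have hcount : ht (rows n p) j = 2 * ((p + 1 - j % 2) / 2) + j % 2 := by
      unfold ht
      rw [count_rows n p j hj]
    have hpar := hcr.2.1
    constructor
    · intro h
      obtain ⟨j', T', h1, h2⟩ := hu.mp h
      obtain ⟨rfl, rfl⟩ := Cr_unique hcr h2
      rw [e1, e2]
      exact count_low hp hn hj (by omega)
    · intro h
      rw [e1, e2]
      refine count_high hp hp1 hn2 hj hpar ?_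
      by_contra hlt
      push Not at hlt
      rw [before_or _ hab.ne] at h
      apply h
      exact hu.mpr ⟨j, T, by omega, hcr⟩
  · have hnone : ∀ x ∈ dom n p, ¬ Before x b a := by
      intro x hx hbf
      obtain ⟨γ, hγ, hR⟩ := exists_of_dom hp hn2 hx
      obtain ⟨j, T, h1, h2⟩ := (hR.I a b hab).mp hbf
      have h3 := hγ.1 j h2.1
      have h4 := h2.2.1
      exact hex ⟨j, T, by omega, h2⟩
    constructor
    · intro h
      obtain ⟨j, T, h1, h2⟩ := hu.mp h
      exfalso
      have hcount : ht (rows n p) j = 2 * ((p + 1 - j % 2) / 2) + j % 2 := by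
        unfold ht
        rw [count_rows n p j h2.1]
      have h4 := h2.2.1
      exact hex ⟨j, T, by omega, h2⟩
    · intro _
      have e1 : {x ∈ dom n p | Before x b a} = ∅ := by
        ext x
        simp only [Set.mem_empty_iff_false, iff_false]
        rintro ⟨hx, hbf⟩
        exact hnone x hx hbf
      rw [e1, Set.ncard_empty, Set.ncard_pos]
      refine ⟨wordProd n [], ⟨word n p, Relation.ReflTransGen.refl, [], List.nil_prefix, rfl⟩, ?_⟩
      exact hab

/-- **Theorem.**  For all `n ≥ 3` and `1 ≤ p ≤ n / 2` the majority relation of the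
domain `D_{n,p}` is the total order `<_{u_p}`. -/
theorem result : ∀ n p : ℕ, 3 ≤ n → 1 ≤ p → 2 * p ≤ n → ∀ a b : Fin n, a ≠ b →
    (Maj (dom n p) a b ↔ Before (u n p) a b) := by
  intro n p hn hp1 hp a b hab
  unfold Maj
  rcases lt_or_gt_of_ne hab with h | h
  · obtain ⟨k1, k2⟩ := key hn hp1 hp h
    constructor
    · intro hm
      by_contra hb
      rw [before_or _ hab, not_not] at hb
      have := k1 hb
      omega
    · exact k2
  · obtain ⟨k1, k2⟩ := key hn hp1 hp h
    constructor
    · intro hm
      by_contra hb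
      rw [before_or _ hab, not_not] at hb
      have := k2 hb
      omega
    · exact k1

end Pool.Agent.Results.MP_43f1fb_co.BipartiteMajority
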